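import Pool.Agent.VRing23.Stair

/-!
# Chain conditions on primitive factor rings, and von Neumann regular rings

Partial results on MP_2175e6_al (helper23).
-/

open MulOpposite Pool.Agent.VRing Cardinal

namespace Pool.Agent.VRing23

universe u

section Chain

variable {U : Type u} [Ring U]

/-- The right annihilator of a set. -/
def rightAnn (S : Set U) : Set U := {z | ∀ x ∈ S, x * z = 0}

/-- The ascending chain condition on right annihilators of subsets of `U g`. -/
def LocalACC (g : U) : Prop :=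
  ¬ ∃ S : ℕ → Set U, (∀ n, ∀ x ∈ S n, ∃ r, x = r * g) ∧
    ∀ n, rightAnn (S n) ⊂ rightAnn (S (n + 1))

lemma not_stair_of_localACC {g : U} (h : LocalACC g) : ¬ Stair g := by
  rintro ⟨x, y, h1, h2, h3⟩
  refine h ⟨fun n => {z | ∃ m, n ≤ m ∧ z = x m}, ?_, ?_⟩
  · rintro n z ⟨m, -, rfl⟩
    exact h1 m
  · intro n
    rw [Set.ssubset_def]
    constructor
    · rintro z hz w ⟨m, hm, rfl⟩
      exact hz _ ⟨m, by omega, rfl⟩
    · intro hle
      apply h2 n
      refine hle (a := y n) ?_ (x n) ⟨n, le_rfl, rfl⟩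
      rintro w ⟨m, hm, rfl⟩
      exact h3 m n hm

/-- An ideal without ladders. -/
def GoodFactor (U : Type u) [Ring U] : Prop :=
  ∃ H : TwoSidedIdeal U, H ≠ ⊥ ∧ ∀ g ∈ H, ¬ Stair g

lemma goodFactor_of_local (h : ∃ H : TwoSidedIdeal U, H ≠ ⊥ ∧ ∀ g ∈ H, LocalACC g) :
    GoodFactor U := by
  obtain ⟨H, h1, h2⟩ := h
  exact ⟨H, h1, fun g hg => not_stair_of_localACC (h2 g hg)⟩

lemma goodFactor_of_acc [Nontrivial U]
    (h : ¬ ∃ S : ℕ → Set U, ∀ n, rightAnn (S n) ⊂ rightAnn (S (n + 1))) : GoodFactor U := by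
  refine ⟨⊤, ?_, fun g _ => not_stair_of_localACC ?_⟩
  · intro h0
    have : (1 : U) ∈ (⊥ : TwoSidedIdeal U) := by rw [← h0]; trivial
    rw [TwoSidedIdeal.mem_bot] at this
    exact one_ne_zero this
  · rintro ⟨S, -, hS⟩
    exact h ⟨S, hS⟩

lemma not_stair_of_noetherian {g : U}
    (h : IsNoetherian Uᵐᵒᵖ (Submodule.span Uᵐᵒᵖ ({g} : Set U))) : ¬ Stair g := by
  rintro ⟨x, y, h1, h2, h3⟩
  choose ρ hρ using h1
  let K : ℕ → Submodule Uᵐᵒᵖ (Submodule.span Uᵐᵒᵖ ({g} : Set U)) := fun n =>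
    { carrier := {z | ∀ m, n ≤ m → ρ m * (z : U) = 0}
      add_mem' := by
        intro a b ha hb m hm
        rw [Submodule.coe_add, mul_add, ha m hm, hb m hm, add_zero]
      zero_mem' := by
        intro m _
        simp
      smul_mem' := by
        intro c a ha m hm
        have : ((c • a : Submodule.span Uᵐᵒᵖ ({g} : Set U)) : U) = (a : U) * c.unop := rfl
        rw [this, ← mul_assoc, ha m hm, zero_mul] }
  have hmono : Monotone K := by
    intro n m hnm z hz k hk
    exact hz k (hnm.trans hk)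
  obtain ⟨n, hn⟩ := monotone_stabilizes_iff_noetherian.mpr h ⟨K, hmono⟩
  have hgy : g * y n ∈ Submodule.span Uᵐᵒᵖ ({g} : Set U) :=
    Submodule.mem_span_singleton.mpr ⟨op (y n), rfl⟩
  have hK1 : (⟨g * y n, hgy⟩ : Submodule.span Uᵐᵒᵖ ({g} : Set U)) ∈ K (n + 1) := by
    intro m hm
    change ρ m * (g * y n) = 0
    rw [← mul_assoc, ← hρ]
    exact h3 m n hm
  have hK2 : K n = K (n + 1) := hn (n + 1) (Nat.le_succ n)
  rw [← hK2] at hK1
  have h4 : ρ n * (g * y n) = 0 := hK1 n le_rfl
  rw [← mul_assoc, ← hρ] at h4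
  exact h2 n h4

lemma goodFactor_of_noetherian
    (h : ∃ N : Submodule Uᵐᵒᵖ U, N ≠ ⊥ ∧ IsNoetherian Uᵐᵒᵖ N) : GoodFactor U := by
  obtain ⟨N, hN0, hN⟩ := h
  have hspan : ∀ {g : U} {L : Submodule Uᵐᵒᵖ U}, IsNoetherian Uᵐᵒᵖ L → g ∈ L →
      IsNoetherian Uᵐᵒᵖ (Submodule.span Uᵐᵒᵖ ({g} : Set U)) := by
    intro g L hL hg
    have hle : Submodule.span Uᵐᵒᵖ ({g} : Set U) ≤ L := by
      rw [Submodule.span_singleton_le_iff_mem]
      exact hg
    exact isNoetherian_of_le hle
  let H : TwoSidedIdeal U := TwoSidedIdeal.mk'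
    {g | IsNoetherian Uᵐᵒᵖ (Submodule.span Uᵐᵒᵖ ({g} : Set U))}
    (by
      rw [Set.mem_ofPred_eq, Submodule.span_singleton_eq_bot.mpr rfl]
      infer_instance)
    (by
      intro a b ha hb
      have ha' : IsNoetherian Uᵐᵒᵖ (Submodule.span Uᵐᵒᵖ ({a} : Set U)) := ha
      have hb' : IsNoetherian Uᵐᵒᵖ (Submodule.span Uᵐᵒᵖ ({b} : Set U)) := hb
      refine hspan (L := Submodule.span Uᵐᵒᵖ ({a} : Set U) ⊔ Submodule.span Uᵐᵒᵖ ({b} : Set U))
        inferInstance ?_
      exact Submodule.add_mem_sup (Submodule.mem_span_singleton_self a)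
        (Submodule.mem_span_singleton_self b))
    (by
      intro a ha
      refine hspan ha ?_
      exact Submodule.neg_mem _ (Submodule.mem_span_singleton_self a))
    (by
      intro r a ha
      have ha' : IsNoetherian Uᵐᵒᵖ (Submodule.span Uᵐᵒᵖ ({a} : Set U)) := ha
      let φ : U →ₗ[Uᵐᵒᵖ] U :=
        { toFun := fun z => r * z
          map_add' := fun a b => mul_add r a b
          map_smul' := fun c z => by
            change r * (z * c.unop) = r * z * c.unop
            rw [mul_assoc] }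
      have hmap : Submodule.span Uᵐᵒᵖ ({r * a} : Set U) =
          (Submodule.span Uᵐᵒᵖ ({a} : Set U)).map φ := by
        rw [Submodule.map_span, Set.image_singleton]
        rfl
      rw [Set.mem_ofPred_eq, hmap]
      exact isNoetherian_map φ)
    (by
      intro a r ha
      refine hspan ha ?_
      exact Submodule.mem_span_singleton.mpr ⟨op r, rfl⟩)
  obtain ⟨g, hgN, hg0⟩ := Submodule.exists_mem_ne_zero_of_ne_bot hN0
  refine ⟨H, ?_, fun g hg => not_stair_of_noetherian ?_⟩
  · intro h0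
    have : g ∈ H := by
      rw [TwoSidedIdeal.mem_mk']
      exact hspan hN hgN
    rw [h0, TwoSidedIdeal.mem_bot] at this
    exact hg0 this
  · rw [TwoSidedIdeal.mem_mk'] at hg
    exact hg

end Chain

lemma RightPrimitive.nontrivial {U : Type u} [Ring U] (h : RightPrimitive U) : Nontrivial U := by
  obtain ⟨M, _, _, hM, -⟩ := h
  by_contra hU
  rw [not_nontrivial_iff_subsingleton] at hU
  have : Subsingleton Uᵐᵒᵖ := MulOpposite.unop_injective.subsingleton
  have h1 : Subsingleton M := Module.subsingleton Uᵐᵒᵖ M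
  have h2 := IsSimpleModule.nontrivial Uᵐᵒᵖ M
  exact not_nontrivial M h2

lemma RightPrimitive.of_surj_inj {R S : Type u} [Ring R] [Ring S] (f : R →+* S)
    (hs : Function.Surjective f) (hi : Function.Injective f) (h : RightPrimitive S) :
    RightPrimitive R := by
  obtain ⟨M, _, _, hM, hfaith⟩ := h
  let _ : Module Rᵐᵒᵖ M := Module.compHom M f.op
  have hsop : Function.Surjective f.op := by
    intro s
    obtain ⟨r, hr⟩ := hs s.unop
    exact ⟨op r, by simp [hr]⟩
  have _ : RingHomSurjective f.op := ⟨hsop⟩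
  let l : M →ₛₗ[f.op] M :=
    { toFun := fun m => m
      map_add' := fun _ _ => rfl
      map_smul' := fun _ _ => rfl }
  refine ⟨M, inferInstance, inferInstance, ?_, ?_⟩
  · exact (LinearMap.isSimpleModule_iff_of_bijective l Function.bijective_id).mpr hM
  · intro r hr
    have h1 := hfaith (f.op r) (fun m => hr m)
    have h2 : f r.unop = 0 := by
      have := congrArg unop h1
      simpa using this
    have h3 : r.unop = 0 := hi (by rw [h2, map_zero])
    exact unop_injective (by simpa using h3)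

/-- Theorem A, general form. -/
theorem primitive_of_goodFactors (R : Type u) [Ring R] [Nontrivial R] (hp : Pr R)
    (hw : WeaklyRegular R) (hJ : JZero R)
    (hfac : ∀ (U : Type u) [Ring U] (f : R →+* U), Function.Surjective f →
      ¬ Function.Injective f → RightPrimitive U → GoodFactor U) : RightPrimitive R := by
  by_contra hn
  obtain ⟨A, G, hBG, hGc, hGA, hpA, hnA, hco, hst⟩ := exists_prime_quotient hp hw hJ hn {1}
    (by simp) ⟨1, rfl⟩
  have hG : G.Countable := by
    rw [← Cardinal.le_aleph0_iff_set_countable]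
    refine hGc.trans (max_le le_rfl ?_)
    simp
  obtain ⟨g, hg⟩ := hG.exists_eq_range ⟨1, hBG rfl⟩
  have hwA : WeaklyRegular A.ringCon.Quotient :=
    weaklyRegular_of_surjective A.ringCon.mk' A.ringCon.mk'_surjective hw
  have hprim : RightPrimitive A.ringCon.Quotient := by
    refine primitive_of_coinitial hwA hpA
      (fun n => TwoSidedIdeal.span {A.ringCon.mk' (g n)}) ?_ ?_
    · intro n h0
      have h1 : A.ringCon.mk' (g n) ∈ TwoSidedIdeal.span {A.ringCon.mk' (g n)} :=
        TwoSidedIdeal.subset_span rfl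
      rw [h0, TwoSidedIdeal.mem_bot, mk'_eq_zero] at h1
      exact hGA (g n) (by rw [hg]; exact ⟨n, rfl⟩) h1
    · intro I hI
      obtain ⟨c, hc, hcI⟩ := hco I hI
      rw [hg] at hc
      obtain ⟨n, rfl⟩ := hc
      refine ⟨n, ?_⟩
      rw [TwoSidedIdeal.span_le]
      simpa using hcI
  have hni : ¬ Function.Injective A.ringCon.mk' := fun hi =>
    hn (hprim.of_surj_inj _ A.ringCon.mk'_surjective hi)
  obtain ⟨H, hH0, hH⟩ := hfac _ A.ringCon.mk' A.ringCon.mk'_surjective hni hprim
  obtain ⟨c, hc, hcH⟩ := hco H hH0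
  exact hH _ hcH (hst c hc)

lemma RightV.jZero {R : Type u} [Ring R] (hV : RightV R) : JZero R := by
  intro g hg
  obtain ⟨M, hM, -, hgM⟩ := hV.exists_maximal ⊥ g (by simpa using hg)
  exact ⟨M, hM, hgM⟩

end Pool.Agent.VRing23
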