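import Pool.Agent.VRing23.Main

/-!
# Prime von Neumann regular rings whose primitive factor rings are simple or have ladder-free ideals

Partial results on MP_2175e6_al (helper23).
-/

open MulOpposite Pool.Agent.VRing Cardinal

namespace Pool.Agent.VRing23

universe u

/-- von Neumann regular -/
def VNR (R : Type u) [Ring R] : Prop := ∀ a : R, ∃ z, a * z * a = a

variable {R : Type u} [Ring R]

lemma VNR.weaklyRegular (h : VNR R) : WeaklyRegular R := by
  intro a
  obtain ⟨z, hz⟩ := h a
  have : a ∈ {y : R | ∃ r, y = a * r * a} := ⟨z, hz.symm⟩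
  exact Submodule.subset_span this

lemma VNR.of_surjective {S : Type u} [Ring S] (f : R →+* S) (hf : Function.Surjective f)
    (h : VNR R) : VNR S := by
  intro a
  obtain ⟨a', rfl⟩ := hf a
  obtain ⟨z, hz⟩ := h a'
  exact ⟨f z, by rw [← map_mul, ← map_mul, hz]⟩

lemma finite_right : Module.Finite Rᵐᵒᵖ R := by
  refine ⟨⟨{1}, ?_⟩⟩
  rw [eq_top_iff]
  intro s _
  rw [Finset.coe_singleton]
  exact Submodule.mem_span_singleton.mpr ⟨op s, by simp⟩

lemma VNR.jZero (h : VNR R) : JZero R := by
  intro g hg
  obtain ⟨z, hz⟩ := h g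
  have hfin : Module.Finite Rᵐᵒᵖ R := finite_right
  have hN : Submodule.span Rᵐᵒᵖ ({1 - g * z} : Set R) ≠ ⊤ := by
    intro htop
    have h1 : (1 : R) ∈ Submodule.span Rᵐᵒᵖ ({1 - g * z} : Set R) := by rw [htop]; trivial
    obtain ⟨r, hr⟩ := Submodule.mem_span_singleton.mp h1
    have hr' : (1 - g * z) * r.unop = 1 := hr
    have h2 : g * z * (1 - g * z) = 0 := by
      rw [mul_sub, mul_one, ← mul_assoc, hz, sub_self]
    have h3 : g * z = 0 := by
      calc g * z = g * z * ((1 - g * z) * r.unop) := by rw [hr', mul_one]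
        _ = 0 := by rw [← mul_assoc, h2, zero_mul]
    apply hg
    rw [← hz, h3, zero_mul]
  obtain ⟨M, hM, hNM⟩ := (eq_top_or_exists_le_coatom _).resolve_left hN
  refine ⟨M, hM, fun hgM => hM.1 ?_⟩
  rw [eq_top_iff]
  intro s _
  have h1 : (1 - g * z : R) ∈ M := hNM (Submodule.mem_span_singleton_self _)
  have h2 : g * z ∈ M := M.smul_mem (op z) hgM
  have h3 : (1 : R) ∈ M := by
    have := M.add_mem h1 h2
    simpa using this
  have := M.smul_mem (op s) h3
  simpa using this

/-- left annihilators of finite sets in regular rings -/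
lemma VNR.exists_ann (h : VNR R) (s : Finset R) :
    ∃ e : R, (∀ y ∈ s, e * y = 0) ∧ 1 - e ∈ Submodule.span Rᵐᵒᵖ (s : Set R) := by
  classical
  induction s using Finset.induction_on with
  | empty => exact ⟨1, by simp, by simp⟩
  | insert y s hy ih =>
    obtain ⟨e, he, he1⟩ := ih
    obtain ⟨z, hz⟩ := h (e * y)
    refine ⟨(1 - e * y * z) * e, ?_, ?_⟩
    · intro w hw
      rcases Finset.mem_insert.mp hw with rfl | hw
      · rw [mul_assoc, sub_mul, one_mul, hz, sub_self]
      · rw [mul_assoc, he w hw, mul_zero]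
    · have hle : Submodule.span Rᵐᵒᵖ (s : Set R) ≤
          Submodule.span Rᵐᵒᵖ ((insert y s : Finset R) : Set R) := by
        apply Submodule.span_mono
        simp
      have hy1 : y ∈ Submodule.span Rᵐᵒᵖ ((insert y s : Finset R) : Set R) :=
        Submodule.subset_span (by simp)
      have h2 := hle he1
      have e1 : 1 - (1 - e * y * z) * e =
          (1 - e) + (op (z * e) • y - op (y * z * e) • (1 - e)) := by
        simp only [op_smul_eq_mul]
        noncomm_ring
      rw [e1]
      exact Submodule.add_mem _ h2 (Submodule.sub_mem _ (Submodule.smul_mem _ _ hy1)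
        (Submodule.smul_mem _ _ h2))

/-- every right primitive factor ring is simple or has a ladder-free ideal -/
def HH (R : Type u) [Ring R] : Prop :=
  ∀ (U : Type u) [Ring U] (f : R →+* U), Function.Surjective f → RightPrimitive U →
    IsSimpleRing U ∨ GoodFactor U

lemma HH.of_surjective {S : Type u} [Ring S] (f : R →+* S) (hf : Function.Surjective f)
    (h : HH R) : HH S := by
  intro U _ g hg hU
  exact h U (g.comp f) (hg.comp hf) hU

/-- coinitial sets -/
def Coin (X : Set R) : Prop := ∀ I : TwoSidedIdeal R, I ≠ ⊥ → ∃ x ∈ X, x ≠ 0 ∧ x ∈ I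

lemma step_lemma [Nontrivial R] (hreg : VNR R) (hp : Pr R) (hH : HH R)
    (hn : ¬ RightPrimitive R) (κ : Cardinal.{u})
    (IH : ∀ (S : Type u) [Ring S] [Nontrivial S], VNR S → Pr S → HH S → ∀ X : Set S,
      #X < κ → Coin X → RightPrimitive S)
    (Y : Set R) (hκ : ℵ₀ < κ) (hY : #Y < κ) (hYtop : Submodule.span Rᵐᵒᵖ Y ≠ ⊤) (x : R)
    (hx : x ≠ 0) :
    ∃ f : R, 1 - f ∈ TwoSidedIdeal.span {x} ∧ Submodule.span Rᵐᵒᵖ (insert f Y) ≠ ⊤ := by
  classical
  have hone : ∀ s : Finset R, (s : Set R) ⊆ Y → (1 : R) ∉ Submodule.span Rᵐᵒᵖ (s : Set R) := by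
    intro s hs h1
    apply hYtop
    rw [eq_top_iff]
    intro t _
    have h2 : (1 : R) ∈ Submodule.span Rᵐᵒᵖ Y := Submodule.span_mono hs h1
    have h3 := Submodule.smul_mem _ (op t) h2
    simpa using h3
  have hann : ∀ s : Finset R, ∃ e : R, (∀ y ∈ s, e * y = 0) ∧
      1 - e ∈ Submodule.span Rᵐᵒᵖ (s : Set R) := hreg.exists_ann
  choose e he1 he2 using hann
  have he0 : ∀ s : Finset R, (s : Set R) ⊆ Y → e s ≠ 0 := by
    intro s hs h0
    have := he2 s
    rw [h0, sub_zero] at this
    exact hone s hs this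
  -- the base set
  let E : List Y → R := fun l => e (l.map Subtype.val).toFinset
  have hEsub : ∀ l : List Y, (((l.map Subtype.val).toFinset : Finset R) : Set R) ⊆ Y := by
    intro l w hw
    simp only [List.coe_toFinset, List.mem_map, Set.mem_ofPred_eq] at hw
    obtain ⟨a, -, rfl⟩ := hw
    exact a.2
  let B : Set R := insert x (Set.range E)
  have hB : ∀ b ∈ B, b ≠ 0 := by
    intro b hb
    rcases hb with rfl | ⟨l, rfl⟩
    · exact hx
    · exact he0 _ (hEsub l)
  obtain ⟨A, G, hBG, hGc, hGA, hpA, hnA, hco, hst⟩ := exists_prime_quotient hp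
    hreg.weaklyRegular hreg.jZero hn B hB ⟨x, Or.inl rfl⟩
  have hBcard : #B < κ := by
    have h1 : #(Set.range E) ≤ max ℵ₀ #Y := mk_range_le.trans (mk_list_le_max _)
    have h2 : #B ≤ #(Set.range E) + 1 := mk_insert_le
    refine h2.trans_lt (add_lt_of_lt hκ.le (h1.trans_lt (max_lt hκ hY)) ?_)
    exact lt_trans one_lt_aleph0 hκ
  let Q := A.ringCon.Quotient
  let π : R →+* Q := A.ringCon.mk'
  have hπ : Function.Surjective π := A.ringCon.mk'_surjective
  have hprim : RightPrimitive Q := by
    refine IH Q (hreg.of_surjective π hπ) hpA (hH.of_surjective π hπ) (π '' G) ?_ ?_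
    · refine (mk_image_le).trans_lt (hGc.trans_lt (max_lt hκ hBcard))
    · intro I hI
      obtain ⟨g, hg, hgI⟩ := hco I hI
      refine ⟨π g, ⟨g, hg, rfl⟩, ?_, hgI⟩
      rw [Ne, mk'_eq_zero]
      exact hGA g hg
  have hsimple : IsSimpleRing Q := by
    rcases hH Q π hπ hprim with h | ⟨H, hH0, hHs⟩
    · exact h
    · obtain ⟨c, hc, hcH⟩ := hco H hH0
      exact absurd (hst c hc) (hHs _ hcH)
  -- the ideal generated by `x` maps onto `Q`
  have hxG : x ∈ G := hBG (Or.inl rfl)
  let J : TwoSidedIdeal Q := TwoSidedIdeal.mk' {q | ∃ t ∈ TwoSidedIdeal.span {x}, π t = q}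
    ⟨0, TwoSidedIdeal.zero_mem _, map_zero _⟩
    (by
      rintro _ _ ⟨a, ha, rfl⟩ ⟨b, hb, rfl⟩
      exact ⟨a + b, TwoSidedIdeal.add_mem _ ha hb, map_add _ _ _⟩)
    (by
      rintro _ ⟨a, ha, rfl⟩
      exact ⟨-a, TwoSidedIdeal.neg_mem _ ha, map_neg _ _⟩)
    (by
      rintro r _ ⟨a, ha, rfl⟩
      obtain ⟨r', rfl⟩ := hπ r
      exact ⟨r' * a, TwoSidedIdeal.mul_mem_left _ _ _ ha, map_mul _ _ _⟩)
    (by
      rintro _ r ⟨a, ha, rfl⟩
      obtain ⟨r', rfl⟩ := hπ r
      exact ⟨a * r', TwoSidedIdeal.mul_mem_right _ _ _ ha, map_mul _ _ _⟩)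
  have hJ : J = ⊤ := by
    rcases hsimple.simple.eq_bot_or_eq_top J with h | h
    · exfalso
      have h1 : π x ∈ J := by
        rw [TwoSidedIdeal.mem_mk']
        exact ⟨x, TwoSidedIdeal.subset_span rfl, rfl⟩
      rw [h, TwoSidedIdeal.mem_bot, mk'_eq_zero] at h1
      exact hGA x hxG h1
    · exact h
  have h1J : (1 : Q) ∈ J := by rw [hJ]; trivial
  rw [TwoSidedIdeal.mem_mk'] at h1J
  obtain ⟨t, ht, ht1⟩ := h1J
  have hfA : 1 - t ∈ A := by
    rw [← mk'_eq_zero, map_sub, map_one]
    change 1 - π t = 0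
    rw [ht1, sub_self]
  refine ⟨1 - t, by simpa using ht, ?_⟩
  intro htop
  have h1 : (1 : R) ∈ Submodule.span Rᵐᵒᵖ (insert (1 - t) Y) := by rw [htop]; trivial
  obtain ⟨c, z, hz, hcz⟩ := Submodule.mem_span_insert.mp h1
  obtain ⟨s, hs, hzs⟩ := Submodule.mem_span_finite_of_mem_span hz
  have hez : e s * z = 0 := by
    clear hcz hz
    induction hzs using Submodule.span_induction with
    | mem y hy => exact he1 s y hy
    | zero => rw [mul_zero]
    | add a b _ _ ha hb => rw [mul_add, ha, hb, add_zero]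
    | smul c y _ hy =>
      change e s * (y * c.unop) = 0
      rw [← mul_assoc, hy, zero_mul]
  have h5 : e s ∈ A := by
    have h6 : e s = e s * (1 - t) * c.unop := by
      calc e s = e s * 1 := (mul_one _).symm
        _ = e s * (c • (1 - t) + z) := by rw [← hcz]
        _ = e s * ((1 - t) * c.unop) := by
          rw [mul_add, hez, add_zero]
          rfl
        _ = _ := by rw [mul_assoc]
    rw [h6]
    exact A.mul_mem_right _ _ (A.mul_mem_left _ _ hfA)
  -- `e s` is in the base set
  have h7 : e s ∈ G := by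
    apply hBG
    refine Or.inr ⟨(s.toList.attach.map fun w => ⟨w.1, hs (Finset.mem_toList.mp w.2)⟩), ?_⟩
    change e _ = e s
    congr 1
    ext w
    simp
  exact hGA _ h7 h5

/-- The main induction. -/
theorem regular_main (κ : Cardinal.{u}) : ∀ (S : Type u) [Ring S] [Nontrivial S], VNR S → Pr S →
    HH S → ∀ X : Set S, #X = κ → Coin X → RightPrimitive S := by
  induction κ using WellFoundedLT.induction with
  | ind κ IH =>
    intro S _ _ hreg hp hH X hX hco
    by_contra hn
    have IH' : ∀ (S : Type u) [Ring S] [Nontrivial S], VNR S → Pr S → HH S → ∀ X : Set S,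
      #X < κ → Coin X → RightPrimitive S := by
      intro S _ _ h1 h2 h3 X h4 h5
      exact IH _ h4 S h1 h2 h3 X rfl h5
    rcases le_or_gt κ ℵ₀ with hκ | hκ
    · -- countable case
      apply hn
      let X' : Set S := {x | x ∈ X ∧ x ≠ 0}
      have hX'c : X'.Countable := by
        have h1 : X.Countable := by
          rw [← Cardinal.le_aleph0_iff_set_countable, hX]
          exact hκ
        exact h1.mono fun x hx => hx.1
      have hX'n : X'.Nonempty := by
        have htop : (⊤ : TwoSidedIdeal S) ≠ ⊥ := by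
          intro h0
          have : (1 : S) ∈ (⊥ : TwoSidedIdeal S) := by rw [← h0]; trivial
          rw [TwoSidedIdeal.mem_bot] at this
          exact one_ne_zero this
        obtain ⟨x, hx, hx0, -⟩ := hco ⊤ htop
        exact ⟨x, hx, hx0⟩
      obtain ⟨g, hg⟩ := hX'c.exists_eq_range hX'n
      refine primitive_of_coinitial hreg.weaklyRegular hp
        (fun n => TwoSidedIdeal.span {g n}) ?_ ?_
      · intro n h0
        have h1 : g n ∈ TwoSidedIdeal.span {g n} := TwoSidedIdeal.subset_span rfl
        rw [h0, TwoSidedIdeal.mem_bot] at h1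
        have h2 : g n ∈ X' := by rw [hg]; exact ⟨n, rfl⟩
        exact h2.2 h1
      · intro I hI
        obtain ⟨c, hc, hc0, hcI⟩ := hco I hI
        have hc' : c ∈ X' := ⟨hc, hc0⟩
        rw [hg] at hc'
        obtain ⟨n, rfl⟩ := hc'
        refine ⟨n, ?_⟩
        rw [TwoSidedIdeal.span_le]
        simpa using hcI
    · -- uncountable case
      classical
      obtain ⟨X, hX, hco, hX0⟩ : ∃ X' : Set S, #X' = κ ∧ Coin X' ∧ ∀ x ∈ X', x ≠ 0 := by
        refine ⟨{x | x ∈ X ∧ x ≠ 0}, ?_, ?_, fun x hx => hx.2⟩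
        · have hle : #({x | x ∈ X ∧ x ≠ 0} : Set S) ≤ κ := by
            rw [← hX]
            exact mk_le_mk_of_subset fun x hx => hx.1
          rcases lt_or_eq_of_le hle with h | h
          · exfalso
            apply hn
            refine IH' S hreg hp hH _ h ?_
            intro I hI
            obtain ⟨x, hx, hx0, hxI⟩ := hco I hI
            exact ⟨x, ⟨hx, hx0⟩, hx0, hxI⟩
          · exact h
        · intro I hI
          obtain ⟨x, hx, hx0, hxI⟩ := hco I hI
          exact ⟨x, ⟨hx, hx0⟩, hx0, hxI⟩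
      obtain ⟨r, wo, hr⟩ := Cardinal.exists_ord_eq X
      let F : X → S := IsWellFounded.fix r fun x ih =>
        if h : ∃ f, 1 - f ∈ TwoSidedIdeal.span {(x : S)} ∧
            Submodule.span Sᵐᵒᵖ (insert f {t | ∃ y hy, ih y hy = t}) ≠ ⊤ then h.choose else 0
      have hF : ∀ x : X, F x = if h : ∃ f, 1 - f ∈ TwoSidedIdeal.span {(x : S)} ∧
            Submodule.span Sᵐᵒᵖ (insert f {t | ∃ y, ∃ _ : r y x, F y = t}) ≠ ⊤
              then h.choose else 0 := by
        intro x
        exact IsWellFounded.fix_eq r _ x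
      have hF' : ∀ x : X, (∃ f, 1 - f ∈ TwoSidedIdeal.span {(x : S)} ∧
            Submodule.span Sᵐᵒᵖ (insert f {t | ∃ y, ∃ _ : r y x, F y = t}) ≠ ⊤) →
            1 - F x ∈ TwoSidedIdeal.span {(x : S)} ∧
            Submodule.span Sᵐᵒᵖ (insert (F x) {t | ∃ y, ∃ _ : r y x, F y = t}) ≠ ⊤ := by
        intro x hx
        rw [hF x, dif_pos hx]
        exact hx.choose_spec
      -- finite subsets determine properness
      have hfinite : ∀ D : Set X, (∀ z ∈ D,
          Submodule.span Sᵐᵒᵖ (insert (F z) {t | ∃ y, ∃ _ : r y z, F y = t}) ≠ ⊤) →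
          Submodule.span Sᵐᵒᵖ (F '' D) ≠ ⊤ := by
        intro D hD htop
        have h1 : (1 : S) ∈ Submodule.span Sᵐᵒᵖ (F '' D) := by rw [htop]; trivial
        obtain ⟨s, hs, h1s⟩ := Submodule.mem_span_finite_of_mem_span h1
        classical
        obtain ⟨s', hs'D, hs's⟩ : ∃ s' : Finset X, (s' : Set X) ⊆ D ∧ s'.image F = s := by
          exact Finset.subset_set_image_iff.mp hs
        rcases s'.eq_empty_or_nonempty with hemp | hne
        · rw [hemp, Finset.image_empty] at hs's
          rw [← hs's] at h1s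
          simp at h1s
        · -- the maximum of `s'`
          obtain ⟨z, hz, hzmax⟩ : ∃ z ∈ s', ∀ y ∈ s', r y z ∨ y = z := by
            let _ : LinearOrder X := linearOrderOfSTO r
            refine ⟨s'.max' hne, s'.max'_mem hne, fun y hy => ?_⟩
            have := s'.le_max' y hy
            rcases lt_or_eq_of_le this with h | h
            · exact Or.inl h
            · exact Or.inr h
          apply hD z (hs'D hz)
          rw [eq_top_iff]
          intro t _
          have h2 : (1 : S) ∈ Submodule.span Sᵐᵒᵖ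
              (insert (F z) {t | ∃ y, ∃ _ : r y z, F y = t}) := by
            refine Submodule.span_mono ?_ h1s
            rw [← hs's]
            intro w hw
            rw [Finset.coe_image] at hw
            obtain ⟨y, hy, rfl⟩ := hw
            rcases hzmax y hy with h | h
            · exact Or.inr ⟨y, h, rfl⟩
            · rw [h]; exact Or.inl rfl
          have h3 := Submodule.smul_mem _ (op t) h2
          simpa using h3
      -- the induction
      have hmain : ∀ x : X, 1 - F x ∈ TwoSidedIdeal.span {(x : S)} ∧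
            Submodule.span Sᵐᵒᵖ (insert (F x) {t | ∃ y, ∃ _ : r y x, F y = t}) ≠ ⊤ := by
        intro x
        induction x using IsWellFounded.induction r with
        | ind x ih =>
          apply hF'
          have himg : {t | ∃ y, ∃ _ : r y x, F y = t} = F '' {y | r y x} := by
            ext t
            simp
          have hproper : Submodule.span Sᵐᵒᵖ {t | ∃ y, ∃ _ : r y x, F y = t} ≠ ⊤ := by
            rw [himg]
            exact hfinite {y | r y x} fun z hz => (ih z hz).2
          have hcard : #({t | ∃ y, ∃ _ : r y x, F y = t} : Set S) < κ := by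
            rw [himg]
            refine mk_image_le.trans_lt ?_
            rw [← hX]
            have := card_typein_lt x hr
            rwa [Ordinal.card_typein] at this
          exact step_lemma hreg hp hH hn κ IH' _ hκ hcard hproper x (hX0 x x.2)
      have hproper : Submodule.span Sᵐᵒᵖ (F '' Set.univ) ≠ ⊤ :=
        hfinite Set.univ fun z _ => (hmain z).2
      have hfin : Module.Finite Sᵐᵒᵖ S := finite_right
      obtain ⟨M, hM, hNM⟩ := (eq_top_or_exists_le_coatom _).resolve_left hproper
      apply hn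
      refine rightPrimitive_of_coatom M hM fun I hI => ?_
      by_contra hI0
      obtain ⟨x, hx, hx0, hxI⟩ := hco I hI0
      have h1 := (hmain ⟨x, hx⟩).1
      have h2 : F ⟨x, hx⟩ ∈ M := hNM (Submodule.subset_span ⟨_, trivial, rfl⟩)
      have h3 : 1 - F ⟨x, hx⟩ ∈ M := by
        apply hI
        have hle : TwoSidedIdeal.span {x} ≤ I := by
          rw [TwoSidedIdeal.span_le]
          simpa using hxI
        exact hle h1
      apply hM.1
      rw [eq_top_iff]
      intro t _
      have h4 : (1 : S) ∈ M := by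
        have := M.add_mem h3 h2
        simpa using this
      have := M.smul_mem (op t) h4
      simpa using this

/-- Theorem D, general form. -/
theorem primitive_of_regular (R : Type u) [Ring R] [Nontrivial R] (hp : Pr R) (hreg : VNR R)
    (hfac : ∀ (U : Type u) [Ring U] (f : R →+* U), Function.Surjective f →
      ¬ Function.Injective f → RightPrimitive U → IsSimpleRing U ∨ GoodFactor U) :
    RightPrimitive R := by
  by_contra hn
  apply hn
  refine regular_main #(Set.univ : Set R) R hreg hp ?_ Set.univ rfl ?_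
  · intro U _ f hf hU
    refine hfac U f hf (fun hi => hn (hU.of_surj_inj f hf hi)) hU
  · intro I hI
    obtain ⟨c, hc, hc0⟩ := exists_mem_ne_zero hI
    exact ⟨c, trivial, hc0, hc⟩

end Pool.Agent.VRing23
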