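import Pool.Agent.VRing.Primitive

/-!
# Ladders in prime rings that are not right primitive

Tools for partial results on MP_2175e6_al (helper23).
-/

open MulOpposite Pool.Agent.VRing Cardinal

namespace Pool.Agent.VRing23

universe u

section Defs

/-- `R` is right primitive: some simple right module is faithful. -/
def RightPrimitive (R : Type u) [Ring R] : Prop :=
  ∃ (M : Type u) (_ : AddCommGroup M) (_ : Module Rᵐᵒᵖ M),
    IsSimpleModule Rᵐᵒᵖ M ∧ ∀ r : Rᵐᵒᵖ, (∀ m : M, r • m = 0) → r = 0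

/-- primeness (without nontriviality) -/
def Pr (R : Type u) [Ring R] : Prop := ∀ a b : R, (∀ r : R, a * r * b = 0) → a = 0 ∨ b = 0

/-- The Jacobson radical is zero: every nonzero element is outside some maximal right ideal. -/
def JZero (R : Type u) [Ring R] : Prop :=
  ∀ g : R, g ≠ 0 → ∃ M : Submodule Rᵐᵒᵖ R, IsCoatom M ∧ g ∉ M

/-- A ladder on `g`. -/
def Stair {R : Type u} [Ring R] (g : R) : Prop :=
  ∃ x y : ℕ → R, (∀ n, ∃ r, x n = r * g) ∧ (∀ n, x n * y n ≠ 0) ∧
    ∀ m n, n < m → x m * y n = 0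

end Defs

variable {R : Type u} [Ring R]

lemma exists_mem_ne_zero {I : TwoSidedIdeal R} (hI : I ≠ ⊥) : ∃ c ∈ I, c ≠ 0 := by
  by_contra hcon
  push Not at hcon
  apply hI
  ext x
  rw [TwoSidedIdeal.mem_bot]
  exact ⟨fun hx => hcon x hx, fun hx => hx ▸ I.zero_mem⟩

lemma rightPrimitive_of_coatom (M : Submodule Rᵐᵒᵖ R) (hM : IsCoatom M)
    (h : ∀ I : TwoSidedIdeal R, (∀ x ∈ I, x ∈ M) → I = ⊥) : RightPrimitive R := by
  refine ⟨R ⧸ M, inferInstance, inferInstance, isSimpleModule_iff_isCoatom.mpr hM, ?_⟩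
  let P : TwoSidedIdeal R := TwoSidedIdeal.mk' {r : R | ∀ m : R ⧸ M, op r • m = 0}
    (by intro m; simp)
    (by
      intro r s hr hs m
      rw [op_add, add_smul, hr, hs, add_zero])
    (by
      intro r hr m
      rw [op_neg, neg_smul, hr, neg_zero])
    (by
      intro r s hs m
      rw [op_mul, mul_smul, hs])
    (by
      intro r s hr m
      rw [op_mul, mul_smul, hr, smul_zero])
  have hP : P = ⊥ := by
    apply h
    intro x hx
    have hx' : ∀ m : R ⧸ M, op x • m = 0 := by simpa [P] using hx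
    have h1 := hx' (M.mkQ 1)
    rw [← map_smul] at h1
    simpa using h1
  intro r hr
  have h1 : r.unop ∈ P := by
    rw [TwoSidedIdeal.mem_mk']
    intro m
    simpa using hr m
  rw [hP, TwoSidedIdeal.mem_bot] at h1
  exact unop_injective (by simpa using h1)

lemma exists_step (hp : Pr R) (hw : WeaklyRegular R) (hJ : JZero R) (hn : ¬ RightPrimitive R)
    (g : R) (hg : g ≠ 0) : ∃ r y : R, r * g ≠ 0 ∧ r * g * y = 0 ∧ g * y ≠ 0 := by
  by_contra hcon
  push Not at hcon
  obtain ⟨M, hM, hgM⟩ := hJ g hg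
  apply hn
  refine rightPrimitive_of_coatom M hM fun I hI => ?_
  by_contra hI0
  obtain ⟨c, hc, hc0⟩ := exists_mem_ne_zero hI0
  have : ∃ r, c * r * g ≠ 0 := by
    by_contra hcon2
    push Not at hcon2
    rcases hp c g hcon2 with h | h
    · exact hc0 h
    · exact hg h
  obtain ⟨r, hr⟩ := this
  obtain ⟨t, ht, htt⟩ := hw.exists_local_unit (c * r * g)
  have hmem : c * r * g ∈ I := I.mul_mem_right _ _ (I.mul_mem_right _ _ hc)
  have hle : TwoSidedIdeal.span {c * r * g} ≤ I := by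
    rw [TwoSidedIdeal.span_le]
    simpa using hmem
  have h1 : g * (1 - t) = 0 := by
    apply hcon (c * r) (1 - t) hr
    rw [mul_sub, mul_one, ← htt, sub_self]
  have h2 : g = g * t := by
    rw [mul_sub, mul_one, sub_eq_zero] at h1
    exact h1
  apply hgM
  rw [h2]
  exact hI _ (I.mul_mem_left _ _ (hle ht))

lemma exists_stair (hp : Pr R) (hw : WeaklyRegular R) (hJ : JZero R) (hn : ¬ RightPrimitive R)
    (g : R) (hg : g ≠ 0) : Stair g := by
  have hstep : ∀ b : {b : R // b ≠ 0}, ∃ (b' : {b : R // b ≠ 0}) (r y : R),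
      (b' : R) = r * b ∧ (b' : R) * y = 0 ∧ (b : R) * y ≠ 0 := by
    intro b
    obtain ⟨r, y, h1, h2, h3⟩ := exists_step hp hw hJ hn b b.2
    exact ⟨⟨r * b, h1⟩, r, y, rfl, h2, h3⟩
  choose nb rr yy h1 h2 h3 using hstep
  let b : ℕ → {b : R // b ≠ 0} := fun n =>
    Nat.rec (motive := fun _ => {b : R // b ≠ 0}) ⟨g, hg⟩ (fun _ b => nb b) n
  have hb : ∀ n, b (n + 1) = nb (b n) := fun n => rfl
  have hmul : ∀ n m, n ≤ m → ∃ r, (b m : R) = r * b n := by
    intro n m hnm
    induction hnm with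
    | refl => exact ⟨1, by simp⟩
    | step _ ih =>
      obtain ⟨r, hr⟩ := ih
      rename_i k _
      refine ⟨rr (b k) * r, ?_⟩
      rw [Nat.succ_eq_add_one, hb, h1, hr, mul_assoc]
  refine ⟨fun n => b n, fun n => yy (b n), fun n => ?_, fun n => h3 _, fun m n hnm => ?_⟩
  · exact hmul 0 n (Nat.zero_le n)
  · obtain ⟨r, hr⟩ := hmul (n + 1) m hnm
    change (b m : R) * yy (b n) = 0
    rw [hr, mul_assoc, hb, h2, mul_zero]

/-- closure of a set under countably many binary operations -/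
lemma exists_closed_set {T : Type u} (P : T → Prop) (B : Set T) (F : ℕ → T → T → T)
    (hB : ∀ b ∈ B, P b) (hF : ∀ n g g', P g → P g' → P (F n g g')) :
    ∃ G : Set T, B ⊆ G ∧ (∀ g ∈ G, P g) ∧ (∀ n, ∀ g ∈ G, ∀ g' ∈ G, F n g g' ∈ G) ∧
      #G ≤ max ℵ₀ #B := by
  let G : ℕ → Set T := fun n => Nat.rec (motive := fun _ => Set T) B
    (fun _ S => S ∪ Set.range (fun p : ℕ × S × S => F p.1 p.2.1 p.2.2)) n
  have hG0 : G 0 = B := rfl
  have hGs : ∀ n, G (n + 1) =
      G n ∪ Set.range (fun p : ℕ × G n × G n => F p.1 p.2.1 p.2.2) := fun n => rfl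
  have hmono : Monotone G := monotone_nat_of_le_succ fun n => by
    rw [hGs]; exact Set.subset_union_left
  refine ⟨⋃ n, G n, ?_, ?_, ?_, ?_⟩
  · exact Set.subset_iUnion G 0
  · intro g hg
    obtain ⟨n, hn⟩ := Set.mem_iUnion.mp hg
    have key : ∀ n, ∀ g ∈ G n, P g := by
      intro n
      induction n with
      | zero => exact hB
      | succ n ih =>
        intro g hg
        rw [hGs] at hg
        rcases hg with hg | ⟨⟨k, a, b⟩, rfl⟩
        · exact ih g hg
        · exact hF k _ _ (ih _ a.2) (ih _ b.2)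
    exact key n g hn
  · intro n g hg g' hg'
    obtain ⟨i, hi⟩ := Set.mem_iUnion.mp hg
    obtain ⟨j, hj⟩ := Set.mem_iUnion.mp hg'
    refine Set.mem_iUnion.mpr ⟨max i j + 1, ?_⟩
    rw [hGs]
    exact Or.inr ⟨⟨n, ⟨g, hmono (le_max_left i j) hi⟩, ⟨g', hmono (le_max_right i j) hj⟩⟩, rfl⟩
  · have hcard : ∀ n, #(G n) ≤ max ℵ₀ #B := by
      intro n
      induction n with
      | zero => exact le_max_right _ _
      | succ n ih =>
        rw [hGs]
        refine (mk_union_le _ _).trans ?_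
        refine add_le_of_le (le_max_left _ _) ih ?_
        refine mk_range_le.trans ?_
        rw [mk_prod, mk_prod]
        simp only [lift_id, lift_uzero, mk_nat, lift_aleph0]
        exact mul_le_of_le (le_max_left _ _) (le_max_left _ _)
          (mul_le_of_le (le_max_left _ _) ih ih)
    have h1 := mk_iUnion_le_lift G
    simp only [lift_uzero, mk_nat, lift_aleph0] at h1
    refine h1.trans (mul_le_of_le (le_max_left _ _) (le_max_left _ _) ?_)
    exact ciSup_le' hcard

/-! ### Quotients -/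

section Quot

lemma weaklyRegular_of_surjective {S : Type u} [Ring S] (f : R →+* S)
    (hf : Function.Surjective f) (hw : WeaklyRegular R) : WeaklyRegular S := by
  intro a
  obtain ⟨a', rfl⟩ := hf a
  have key : ∀ y ∈ Submodule.span Rᵐᵒᵖ {y : R | ∃ r, y = a' * r * a'},
      f y ∈ Submodule.span Sᵐᵒᵖ {y : S | ∃ r, y = f a' * r * f a'} := by
    intro y hy
    induction hy using Submodule.span_induction with
    | mem y hy =>
      obtain ⟨r, rfl⟩ := hy
      exact Submodule.subset_span ⟨f r, by simp⟩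
    | zero => rw [map_zero]; exact Submodule.zero_mem _
    | add x y _ _ hx hy => rw [map_add]; exact Submodule.add_mem _ hx hy
    | smul s x _ hx =>
      have : f (s • x) = op (f s.unop) • f x := by
        change f (x * s.unop) = f x * f s.unop
        rw [map_mul]
      rw [this]
      exact Submodule.smul_mem _ _ hx
  exact key a' (hw a')

lemma mk'_eq_zero (A : TwoSidedIdeal R) (x : R) : A.ringCon.mk' x = 0 ↔ x ∈ A := by
  rw [← TwoSidedIdeal.mem_ker, TwoSidedIdeal.ker_ringCon_mk']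

/-- an ideal maximal with respect to avoiding a nonempty set -/
lemma exists_maximal_avoiding (G : Set R) (h0 : (0 : R) ∉ G) :
    ∃ A : TwoSidedIdeal R, (∀ g ∈ G, g ∉ A) ∧
      ∀ I : TwoSidedIdeal R, A < I → ∃ g ∈ G, g ∈ I := by
  obtain ⟨A, -, hA⟩ := zorn_le_nonempty₀ {A : TwoSidedIdeal R | ∀ g ∈ G, g ∉ A} (by
    intro c hc hchain y hy
    let U : TwoSidedIdeal R := TwoSidedIdeal.mk' {x | ∃ I ∈ c, x ∈ I}
      ⟨y, hy, y.zero_mem⟩
      (by
        rintro a b ⟨I, hI, haI⟩ ⟨J, hJ, hbJ⟩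
        rcases hchain.total hI hJ with h | h
        · exact ⟨J, hJ, J.add_mem (h haI) hbJ⟩
        · exact ⟨I, hI, I.add_mem haI (h hbJ)⟩)
      (by
        rintro a ⟨I, hI, haI⟩
        exact ⟨I, hI, I.neg_mem haI⟩)
      (by
        rintro a b ⟨I, hI, haI⟩
        exact ⟨I, hI, I.mul_mem_left _ _ haI⟩)
      (by
        rintro a b ⟨I, hI, haI⟩
        exact ⟨I, hI, I.mul_mem_right _ _ haI⟩)
    refine ⟨U, ?_, ?_⟩
    · intro g hg hgU
      obtain ⟨I, hI, hgI⟩ : ∃ I ∈ c, g ∈ I := by simpa [U] using hgU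
      exact hc hI g hg hgI
    · intro I hI x hx
      have : ∃ I ∈ c, x ∈ I := ⟨I, hI, hx⟩
      change x ∈ U
      simpa [U] using this) ⊥ (by
    intro g hg hg0
    rw [TwoSidedIdeal.mem_bot] at hg0
    exact h0 (hg0 ▸ hg))
  refine ⟨A, hA.prop, fun I hI => ?_⟩
  by_contra hcon
  push Not at hcon
  exact absurd (hA.le_of_ge (y := I) hcon hI.le) (not_le_of_gt hI)

lemma prime_of_ideals {S : Type u} [Ring S]
    (h : ∀ I J : TwoSidedIdeal S, I ≠ ⊥ → J ≠ ⊥ → ∃ a ∈ I, ∃ b ∈ J, ∃ r, a * r * b ≠ 0) :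
    Pr S := by
  intro a b hab
  by_contra hcon
  push Not at hcon
  obtain ⟨ha, hb⟩ := hcon
  let I : TwoSidedIdeal S := TwoSidedIdeal.mk' {x | ∀ r, x * r * b = 0}
    (by intro r; simp)
    (by intro x y hx hy r; rw [add_mul, add_mul, hx, hy, add_zero])
    (by intro x hx r; rw [neg_mul, neg_mul, hx, neg_zero])
    (by intro x y hy r; rw [mul_assoc x, mul_assoc x, hy, mul_zero])
    (by intro x y hx r; rw [mul_assoc x y r, hx])
  have hI : I ≠ ⊥ := by
    intro h0
    have : a ∈ I := by simpa [I] using hab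
    rw [h0, TwoSidedIdeal.mem_bot] at this
    exact ha this
  let J : TwoSidedIdeal S := TwoSidedIdeal.mk' {y | ∀ x ∈ I, ∀ r, x * r * y = 0}
    (by intro x _ r; simp)
    (by intro y z hy hz x hx r; rw [mul_add, hy x hx, hz x hx, add_zero])
    (by intro y hy x hx r; rw [mul_neg, hy x hx, neg_zero])
    (by
      intro y z hz x hx r
      rw [← mul_assoc, mul_assoc x r y]
      exact hz x hx _)
    (by intro y z hy x hx r; rw [← mul_assoc, hy x hx, zero_mul])
  have hJ : J ≠ ⊥ := by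
    intro h0
    have : b ∈ J := by
      rw [TwoSidedIdeal.mem_mk']
      intro x hx
      have : ∀ r, x * r * b = 0 := by simpa [I] using hx
      exact this
    rw [h0, TwoSidedIdeal.mem_bot] at this
    exact hb this
  obtain ⟨x, hx, y, hy, r, hr⟩ := h I J hI hJ
  have hy' : ∀ x ∈ I, ∀ r, x * r * y = 0 := by
    rw [TwoSidedIdeal.mem_mk'] at hy
    exact hy
  exact hr (hy' x hx r)

/-- The main construction: in a prime right weakly regular ring with zero radical which is not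
right primitive, every nonempty set `B` of nonzero elements is avoided by a prime ideal `A` such
that `R / A` has a coinitial set `G` (of cardinality at most `max ℵ₀ #B`) all of whose elements
have ladders in `R / A`. -/
theorem exists_prime_quotient (hp : Pr R) (hw : WeaklyRegular R) (hJ : JZero R)
    (hn : ¬ RightPrimitive R) (B : Set R) (hB : ∀ b ∈ B, b ≠ 0) (hBne : B.Nonempty) :
    ∃ (A : TwoSidedIdeal R) (G : Set R), B ⊆ G ∧ #G ≤ max ℵ₀ #B ∧ (∀ g ∈ G, g ∉ A) ∧
      Pr A.ringCon.Quotient ∧ Nontrivial A.ringCon.Quotient ∧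
      (∀ I : TwoSidedIdeal A.ringCon.Quotient, I ≠ ⊥ → ∃ g ∈ G, A.ringCon.mk' g ∈ I) ∧
      (∀ g ∈ G, Stair (A.ringCon.mk' g)) := by
  classical
  have hst : ∀ g : R, g ≠ 0 → ∃ x y : ℕ → R, (∀ n, ∃ r, x n = r * g) ∧ (∀ n, x n * y n ≠ 0) ∧
    ∀ m n, n < m → x m * y n = 0 := fun g hg => exists_stair hp hw hJ hn g hg
  choose! X Y hXY1 hXY2 hXY3 using hst
  have hpr : ∀ g g' : R, g ≠ 0 → g' ≠ 0 → ∃ r, g * r * g' ≠ 0 := by
    intro g g' hg hg'
    by_contra hcon
    push Not at hcon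
    rcases hp g g' hcon with h | h
    · exact hg h
    · exact hg' h
  choose! rr hrr using hpr
  let F : ℕ → R → R → R := fun n g g' =>
    Nat.casesOn n (g * rr g g' * g') (fun k => X g k * Y g k)
  obtain ⟨G, hBG, hGP, hGF, hGcard⟩ := exists_closed_set (fun g : R => g ≠ 0) B F hB (by
    intro n g g' hg hg'
    cases n with
    | zero => exact hrr g g' hg hg'
    | succ k => exact hXY2 g hg k)
  obtain ⟨A, hA1, hA2⟩ := exists_maximal_avoiding G (fun h => hGP 0 h rfl)
  have hco : ∀ I : TwoSidedIdeal A.ringCon.Quotient, I ≠ ⊥ →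
      ∃ g ∈ G, A.ringCon.mk' g ∈ I := by
    intro I hI
    obtain ⟨c, hc, hc0⟩ := exists_mem_ne_zero hI
    obtain ⟨c', rfl⟩ := A.ringCon.mk'_surjective c
    have hlt : A < I.comap A.ringCon.mk' := by
      refine lt_of_le_of_ne ?_ ?_
      · intro x hx
        change x ∈ I.comap A.ringCon.mk'
        rw [TwoSidedIdeal.mem_comap, (mk'_eq_zero A x).mpr hx]
        exact I.zero_mem
      · intro h
        apply hc0
        rw [mk'_eq_zero, h, TwoSidedIdeal.mem_comap]
        exact hc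
    obtain ⟨g, hg, hgI⟩ := hA2 _ hlt
    exact ⟨g, hg, by simpa [TwoSidedIdeal.mem_comap] using hgI⟩
  refine ⟨A, G, hBG, hGcard, hA1, ?_, ?_, hco, ?_⟩
  · refine prime_of_ideals fun I J hI hJ => ?_
    obtain ⟨g, hg, hgI⟩ := hco I hI
    obtain ⟨g', hg', hgJ⟩ := hco J hJ
    refine ⟨_, hgI, _, hgJ, A.ringCon.mk' (rr g g'), ?_⟩
    rw [← map_mul, ← map_mul, Ne, mk'_eq_zero]
    exact hA1 _ (hGF 0 g hg g' hg')
  · obtain ⟨b, hb⟩ := hBne
    refine ⟨A.ringCon.mk' b, 0, ?_⟩
    rw [Ne, mk'_eq_zero]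
    exact hA1 _ (hBG hb)
  · intro g hg
    have hg0 := hGP g hg
    refine ⟨fun n => A.ringCon.mk' (X g n), fun n => A.ringCon.mk' (Y g n), fun n => ?_,
      fun n => ?_, fun m n hnm => ?_⟩
    · obtain ⟨r, hr⟩ := hXY1 g hg0 n
      refine ⟨A.ringCon.mk' r, ?_⟩
      change A.ringCon.mk' (X g n) = _
      rw [hr, map_mul]
    · rw [← map_mul, Ne, mk'_eq_zero]
      exact hA1 _ (hGF (n + 1) g hg g hg)
    · rw [← map_mul, hXY3 g hg0 m n hnm, map_zero]

end Quot

end Pool.Agent.VRing23
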